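import Pool.Agent.N363.SL.Two

/-!
# Two (and many) abundant elements in almost all union-closed families with `n` members

We count union-closed families by the number `n` of their members, in three ways: families of exactly
`n` subsets of a set with `m ≥ n` elements; inclusion orders on `Fin n` (these are all partial orders in
which any two elements have a least upper bound, so all finite join-semilattices, `Orders_eq` below);
and isomorphism classes of such orders. Let `k ≤ n` and `k ^ 3 ≥ 10 ^ 7 * n ^ 2 * (log n) ^ 4`, that is,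
`k ≥ C n ^ (2/3) (log n) ^ (4/3)`. In each case all but a `2 ^ (- k ^ (3/2) / 2000)` fraction of the
families (for orders: every union-closed family with the given order) have at least `√k / 400` elements,
no two of which lie in the same members, each lying in all but at most `k` of the `n` members. So for
every `ε > 0` almost all families have `c_ε √n` such elements in at least `(1 - ε) n` members; with
`ε = 1/2` two distinct elements (even `c √n` pairwise distinguishable ones) lie in at least half of the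
members.

Proof. An element `i` of the ground set corresponds to the largest member avoiding it, and every
meet-irreducible member `m` occurs here; then `i` lies in all but `|↓m|` members. Suppose that at most
`√k / 400` meet-irreducible members `m` have `|↓m| ≤ k` (call the set of them `B`). Let
`D = {x : |↓x| > k / 2}`, an up-set, and `v ∉ D`. If `m ≥ v` is meet-irreducible and `m ∉ B`, at least
`k / 2` members `y` are contained in `m` but not in `v`. So for `r = O((n / k) log n)` random members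
`y_1, ..., y_r` each of these `m` is above one of the members `x_i = v ∪ y_i` strictly above `v`. Hence
the inclusion order is determined by `D`, its restriction to `D`, the `r`-tuples `(x_i)` and the sets of
the elements of `B` above `v`, for all `v ∉ D`. As the ordinal sum of two join-semilattices is a
join-semilattice and there are `2 ^ (t ^ (3/2) / 24)` of them with `t` elements (points and lines of a
plane over a prime field), each choice of `D` with complement of size `t` accounts for only a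
`2 ^ (O(t √k / 200) - t ^ (3/2) / 24)` fraction of all orders, and `t ≥ k / 2 - 1`.
-/

namespace Pool.Agent.Results.MP_caa27d_co.AlmostAllOrders

/-- the union-closed families consisting of exactly `n` subsets of `Fin m` -/
def Families (n m : ℕ) : Set (Finset (Finset (Fin m))) :=
  {F | F.card = n ∧ ∀ X ∈ F, ∀ Y ∈ F, X ∪ Y ∈ F}

/-- `R` is the inclusion order of the union-closed family `F`, for some numbering `e` of its members -/
def IsOrderOf {n : ℕ} (R : Fin n → Fin n → Prop) (F : Finset (Finset ℕ)) : Prop :=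
  (∀ X ∈ F, ∀ Y ∈ F, X ∪ Y ∈ F) ∧ ∃ e : Fin n ≃ F, ∀ x y, R x y ↔ (e x : Finset ℕ) ⊆ e y

/-- the inclusion orders of the union-closed families with `n` members -/
def Orders (n : ℕ) : Set (Fin n → Fin n → Prop) := {R | ∃ F, IsOrderOf R F}

/-- the isomorphism class of `R` -/
def isoClass {n : ℕ} (R : Fin n → Fin n → Prop) : Set (Fin n → Fin n → Prop) :=
  {R' | ∃ σ : Equiv.Perm (Fin n), ∀ x y, R' x y ↔ R (σ x) (σ y)}

/-- there are at least `s` elements, no two of them in the same members of `F`, each of which lies in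
all but at most `k` members of `F` -/
def Abundant {β : Type} [DecidableEq β] (F : Finset (Finset β)) (k : ℕ) (s : ℝ) : Prop :=
  ∃ I : Finset β, s ≤ I.card ∧ (∀ i ∈ I, F.card ≤ (F.filter (fun X => i ∈ X)).card + k) ∧
    ∀ i ∈ I, ∀ j ∈ I, (∀ X ∈ F, i ∈ X ↔ j ∈ X) → i = j

/-- two distinct elements each lie in at least half of the members of `F` -/
def TwoInHalf {β : Type} [DecidableEq β] (F : Finset (Finset β)) : Prop :=
  ∃ x y : β, x ≠ y ∧ F.card ≤ 2 * (F.filter (fun X => x ∈ X)).card ∧
    F.card ≤ 2 * (F.filter (fun X => y ∈ X)).card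

/-- the inclusion orders of union-closed families with `n` members are exactly the partial orders in
which any two elements have a least upper bound -/
theorem Orders_eq (n : ℕ) : Orders n = {R | (∀ x, R x x) ∧ (∀ x y, R x y → R y x → x = y) ∧
    (∀ x y z, R x y → R y z → R x z) ∧
    ∀ x y, ∃ z, R x z ∧ R y z ∧ ∀ w, R x w → R y w → R z w} := by
  have h := Pool.Agent.N363.SL.orders_eq n
  ext R
  have h1 : R ∈ Orders n ↔ Pool.Agent.N363.SL.JSL R := by
    have h2 := Set.ext_iff.1 h R
    exact h2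
  rw [h1]
  exact ⟨fun h => ⟨h.refl, h.antisymm, h.trans, h.join⟩, fun h => ⟨h.1, h.2.1, h.2.2.1, h.2.2.2⟩⟩

/-- two of the many abundant elements -/
theorem two_of_abundant {β : Type} [DecidableEq β] {F : Finset (Finset β)} {n : ℕ} {s : ℝ}
    (hn : F.card = n) (hs : 2 ≤ s) (h : Abundant F ⌊(1 / 2 : ℝ) * n⌋₊ s) : TwoInHalf F := by
  obtain ⟨I, h1, h2, -⟩ := h
  have h3 : (1 : ℝ) < I.card := by linarith
  have h4 : 1 < I.card := by exact_mod_cast h3
  obtain ⟨x, hx, y, hy, hxy⟩ := Finset.one_lt_card.1 h4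
  have hf : ((⌊(1 / 2 : ℝ) * n⌋₊ : ℕ) : ℝ) ≤ 1 / 2 * n := Nat.floor_le (by positivity)
  have key : ∀ i ∈ I, F.card ≤ 2 * (F.filter (fun X => i ∈ X)).card := by
    intro i hi
    have h5 : (F.card : ℝ) ≤ ((F.filter (fun X => i ∈ X)).card : ℝ) +
        ((⌊(1 / 2 : ℝ) * n⌋₊ : ℕ) : ℝ) := by exact_mod_cast h2 i hi
    have h6 : (F.card : ℝ) = n := by exact_mod_cast hn
    have h7 : (F.card : ℝ) ≤ 2 * ((F.filter (fun X => i ∈ X)).card : ℝ) := by linarith
    exact_mod_cast h7
  exact ⟨x, y, hxy, key x hx, key y hy⟩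

theorem card_of_order {n : ℕ} {R : Fin n → Fin n → Prop} {F : Finset (Finset ℕ)}
    (h : IsOrderOf R F) : F.card = n := by
  obtain ⟨-, e, -⟩ := h
  have := Fintype.card_congr e
  simpa using this.symm

theorem result :
    -- families of `n` subsets of a set with `m ≥ n` elements
    (∀ n k m : ℕ, 2 ≤ n → k ≤ n → n ≤ m →
      10000000 * (n : ℝ) ^ 2 * Real.log n ^ 4 ≤ (k : ℝ) ^ 3 →
        ({F | F ∈ Families n m ∧ ¬ Abundant F k (√k / 400)}.ncard : ℝ) ≤
          (2 : ℝ) ^ (-((k : ℝ) * √k / 2000)) * (Families n m).ncard) ∧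
    -- inclusion orders, labelled and up to isomorphism
    (∀ n k : ℕ, 2 ≤ n → k ≤ n → 10000000 * (n : ℝ) ^ 2 * Real.log n ^ 4 ≤ (k : ℝ) ^ 3 →
      ({R : Fin n → Fin n → Prop | ∃ F, IsOrderOf R F ∧ ¬ Abundant F k (√k / 400)}.ncard : ℝ) ≤
          (2 : ℝ) ^ (-((k : ℝ) * √k / 2000)) * (Orders n).ncard ∧
      ((isoClass '' {R : Fin n → Fin n → Prop |
          ∃ F, IsOrderOf R F ∧ ¬ Abundant F k (√k / 400)}).ncard : ℝ) ≤
          (2 : ℝ) ^ (-((k : ℝ) * √k / 2000)) * (isoClass '' Orders n).ncard) ∧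
    -- the inclusion orders are the join-semilattice orders
    (∀ n : ℕ, Orders n = {R | (∀ x, R x x) ∧ (∀ x y, R x y → R y x → x = y) ∧
      (∀ x y z, R x y → R y z → R x z) ∧
      ∀ x y, ∃ z, R x z ∧ R y z ∧ ∀ w, R x w → R y w → R z w}) ∧
    -- a fixed proportion: `c √n` elements in at least `(1 - ε) n` members
    (∀ ε : ℝ, 0 < ε → ε ≤ 1 → ∃ c : ℝ, 0 < c ∧ ∃ N : ℕ, ∀ n : ℕ, N ≤ n → ∀ m : ℕ, n ≤ m →
      ({F | F ∈ Families n m ∧ ¬ Abundant F ⌊ε * n⌋₊ (c * √n)}.ncard : ℝ) ≤
        (2 : ℝ) ^ (-(c * (n * √n))) * (Families n m).ncard) ∧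
    -- the statement of Q1, for almost all families and almost all inclusion orders
    ∃ c : ℝ, 0 < c ∧ ∃ N : ℕ, ∀ n : ℕ, N ≤ n →
      (∀ m : ℕ, n ≤ m → ({F | F ∈ Families n m ∧ ¬ TwoInHalf F}.ncard : ℝ) ≤
        (2 : ℝ) ^ (-(c * (n * √n))) * (Families n m).ncard) ∧
      ({R : Fin n → Fin n → Prop | ∃ F, IsOrderOf R F ∧ ¬ TwoInHalf F}.ncard : ℝ) ≤
        (2 : ℝ) ^ (-(c * (n * √n))) * (Orders n).ncard ∧
      ((isoClass '' {R : Fin n → Fin n → Prop | ∃ F, IsOrderOf R F ∧ ¬ TwoInHalf F}).ncard : ℝ) ≤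
        (2 : ℝ) ^ (-(c * (n * √n))) * (isoClass '' Orders n).ncard := by
  refine ⟨fun _ _ _ hn hk hm h => Pool.Agent.N363.SL.fam_bound hn hk h hm,
    fun _ _ hn hk h => Pool.Agent.N363.SL.orders_bound hn hk h, Orders_eq, ?_, ?_⟩
  · intro ε h0 h1
    obtain ⟨c, hc, N, hN⟩ := Pool.Agent.N363.SL.eps_all ε h0 h1
    exact ⟨c, hc, N, fun n hn m hm => (hN n hn).2.1 m hm⟩
  · obtain ⟨c, hc, N, hN⟩ := Pool.Agent.N363.SL.eps_all (1 / 2) (by norm_num) (by norm_num)
    refine ⟨c, hc, N, fun n hn => ?_⟩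
    obtain ⟨h2, hF, hR, hI⟩ := hN n hn
    have hsub : {R : Fin n → Fin n → Prop | ∃ F, IsOrderOf R F ∧ ¬ TwoInHalf F} ⊆
        {R : Fin n → Fin n → Prop | ∃ F : Finset (Finset ℕ), Pool.Agent.N363.SL.IsOrderOf R F ∧
          ¬ Pool.Agent.N363.SL.Abundant F ⌊(1 / 2 : ℝ) * n⌋₊ (c * √n)} := by
      rintro R ⟨F, hF1, hF2⟩
      exact ⟨F, hF1, fun h => hF2 (two_of_abundant (card_of_order hF1) h2 h)⟩
    refine ⟨fun m hm => le_trans ?_ (hF m hm), le_trans ?_ hR, le_trans ?_ hI⟩
    · have hsub2 : ({F | F ∈ Families n m ∧ ¬ TwoInHalf F} : Set (Finset (Finset (Fin m)))) ⊆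
          {F | F ∈ Pool.Agent.N363.SL.famG n (Fin m) ∧
            ¬ Pool.Agent.N363.SL.Abundant F ⌊(1 / 2 : ℝ) * n⌋₊ (c * √n)} := by
        rintro F ⟨hF1, hF2⟩
        exact ⟨hF1, fun h => hF2 (two_of_abundant hF1.1 h2 h)⟩
      exact_mod_cast Set.ncard_le_ncard hsub2 (Set.toFinite _)
    · exact_mod_cast Set.ncard_le_ncard hsub (Set.toFinite _)
    · exact_mod_cast Set.ncard_le_ncard (Set.image_mono hsub) (Set.toFinite _)

end Pool.Agent.Results.MP_caa27d_co.AlmostAllOrders
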