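import Pool.Agent.N188.FC.Third

set_option autoImplicit false

/-!
# Two abundant elements in families containing two thirds of the subsets of some set

Let `F` be a finite union-closed family, `S` a finite set with at least two elements, and let `G` be
a family of subsets of `S`, none of which has exactly one element, with `A ∪ B ∈ F` for all `A ∈ F`,
`B ∈ G`; for instance `G = {A ∈ F : A ⊆ S}`, if the nonempty members of `F` have at least two
elements. Nothing is assumed about the other members of `F`. If `G` contains at least two thirds of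
all subsets of `S`, more exactly at least `(2 ^ (|S| + 1) - 1 - ⌊3 (|S| - 1) / 2⌋) / 3` nonempty sets,
then two different elements of `S` lie in at least half of the members of `F` each.

Proof. By the theorem behind `MP_9bc572_co.DenseInside` (helper188) some `x ∈ S` lies in at least half
of the members. At most `2 ^ (|S| - 1) - 1` sets of `G` contain `x`, so the theorem also applies to
`S \ {x}`.
-/

namespace Pool.Agent.Results.MP_caa27d_co.DenseInside

open Finset

theorem result {α : Type*} [DecidableEq α] (F G : Finset (Finset α)) (S : Finset α)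
    (hF : ∀ A ∈ F, ∀ B ∈ F, A ∪ B ∈ F) (hG : ∀ B ∈ G, B ⊆ S)
    (hFG : ∀ A ∈ F, ∀ B ∈ G, A ∪ B ∈ F) (h2 : ∀ B ∈ G, B.card ≠ 1) (hS : 2 ≤ S.card)
    (h : 2 ^ (S.card + 1) ≤ 3 * (G.filter (fun B => B.Nonempty)).card + 3 * (S.card - 1) / 2 + 1) :
    ∃ x ∈ S, ∃ y ∈ S, x ≠ y ∧ F.card ≤ 2 * (F.filter (fun A => x ∈ A)).card ∧
      F.card ≤ 2 * (F.filter (fun A => y ∈ A)).card := by
  obtain ⟨m, hm⟩ : ∃ m, S.card = m + 2 := ⟨S.card - 2, by omega⟩
  have hm2 : S.card - 1 = m + 1 := by omega
  rw [hm2, hm] at h
  have hpow3 : (2 : ℕ) ^ (m + 2 + 1) = 8 * 2 ^ m := by rw [pow_add, pow_add]; ring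
  rw [hpow3] at h
  have hpow1 : (2 : ℕ) ^ (m + 2) = 4 * 2 ^ m := by rw [pow_add]; ring
  have hpow2 : (2 : ℕ) ^ (m + 1) = 2 * 2 ^ m := by rw [pow_succ]; ring
  have hpos : 0 < 2 ^ m := by positivity
  obtain ⟨x, hx, hx2⟩ := Pool.Agent.N188.FC.density_third hF (m + 1) S G (by omega) hG hFG (by
    rw [hm, hpow1]
    omega)
  -- the sets containing `x`
  have hcx : (G.filter (fun B => x ∈ B)).card + 1 ≤ 2 ^ (m + 1) := by
    have h3 : (G.filter (fun B => x ∈ B)).card ≤ ((S.erase x).powerset.erase ∅).card := by
      apply card_le_card_of_injOn (fun B => B.erase x)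
      · intro B hB
        rw [mem_coe, mem_filter] at hB
        rw [mem_coe, mem_erase, mem_powerset]
        refine ⟨?_, erase_subset_erase _ (hG B hB.1)⟩
        intro he
        apply h2 B hB.1
        have he' : B.erase x = ∅ := he
        have h4 := card_erase_of_mem hB.2
        rw [he', card_empty] at h4
        have h5 : 0 < B.card := card_pos.2 ⟨x, hB.2⟩
        omega
      · intro B hB C hC hBC
        rw [mem_coe, mem_filter] at hB hC
        have h4 : B.erase x = C.erase x := hBC
        rw [← insert_erase hB.2, ← insert_erase hC.2, h4]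
    rw [card_erase_of_mem (empty_mem_powerset _), card_powerset, card_erase_of_mem hx, hm] at h3
    have h6 : m + 2 - 1 = m + 1 := by omega
    rw [h6] at h3
    have h7 : 0 < 2 ^ (m + 1) := by positivity
    omega
  have hsplit := card_filter_add_card_filter_not (s := G.filter (fun B => B.Nonempty))
    (fun B => x ∈ B)
  have h8 : ((G.filter (fun B => B.Nonempty)).filter (fun B => x ∈ B)).card ≤
      (G.filter (fun B => x ∈ B)).card := by
    apply card_le_card
    intro B hB
    rw [mem_filter, mem_filter] at hB
    exact mem_filter.2 ⟨hB.1.1, hB.2⟩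
  have h9 : ((G.filter (fun B => B.Nonempty)).filter (fun B => ¬ x ∈ B)) =
      ((G.filter (fun B => x ∉ B)).filter (fun B => B.Nonempty)) := by
    rw [filter_filter, filter_filter]
    apply filter_congr
    intro B _
    exact and_comm
  rw [h9] at hsplit
  have hce : (S.erase x).card = m + 1 := by
    rw [card_erase_of_mem hx]
    omega
  obtain ⟨y, hy, hy2⟩ := Pool.Agent.N188.FC.density_third hF m (S.erase x) (G.filter (fun B => x ∉ B))
    hce (by
      intro B hB
      rw [mem_filter] at hB
      exact subset_erase.2 ⟨hG B hB.1, hB.2⟩)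
    (fun A hA B hB => hFG A hA B (mem_filter.1 hB).1) (by
      rw [hce, hpow2]
      rw [hpow2] at hcx
      omega)
  rw [mem_erase] at hy
  exact ⟨x, hx, y, hy.2, hy.1.symm, hx2, hy2⟩

end Pool.Agent.Results.MP_caa27d_co.DenseInside
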